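import Pool.Agent.H34.VMadE

namespace Pool.Agent.Results.MP_5897b0_lc.Iff
open Pool.Agent.H34.VMad

/-- Over a countable field `F`, a space of countably infinite dimension carries an infinite
analytic mad family of subspaces exactly when `F` has more than two elements. -/
theorem result (F : Type) [Field F] [Countable F] (E : Type) [AddCommGroup E] [Module F E]
    (b : Module.Basis ℕ F E) :
    (∃ 𝒜 : Set (Submodule F E), 𝒜.Infinite ∧ Mad 𝒜 ∧ MeasureTheory.AnalyticSet (chi 𝒜)) ↔
      ∃ c : F, c ≠ 0 ∧ c ≠ 1 := by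
  refine ⟨fun ⟨𝒜, h1, h2, h3⟩ => by_contra fun c => not_analytic b (fun x => ?_) h1 h2 h3,
    fun h => (exists_borel b h).imp fun 𝒜 k => ⟨k.1, k.2.1, k.2.2.2.1⟩⟩
  by_contra! q
  exact c ⟨x, q⟩

end Pool.Agent.Results.MP_5897b0_lc.Iff
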